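import Pool.Agent.H532Z.IndQ2

set_option autoImplicit false

namespace Pool.Agent.Results.MP_bd525c_gt.BQ2StronglyPara

open Pool.Agent.H532Z.IndProd

universe u v

/-- Q2: if `X × Y` is normal (and `T₁`, so Hausdorff) and strongly paracompact, one factor is
nonempty, and both factors satisfy the finite sum theorem for `Ind`, then
`Ind (X × Y) ≤ Ind X + Ind Y`. -/
theorem result (X : Type u) (Y : Type v) [TopologicalSpace X] [TopologicalSpace Y]
    [T4Space (X × Y)] (hne : Nonempty X ∨ Nonempty Y)
    (hX : FiniteSumInd X) (hY : FiniteSumInd Y) (hP : StronglyParacompact (X × Y)) :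
    Ind (X × Y) ≤ Ind X + Ind Y :=
  q2 hne hX hY hP

end Pool.Agent.Results.MP_bd525c_gt.BQ2StronglyPara
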